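import Pool.Agent.MP_1dbd31_co.win.Final

set_option autoImplicit false
open Finset SimpleGraph

namespace Pool.Agent.MP_1dbd31_co.sq
open scoped Classical

theorem up_reg {n k r d : ℕ} (hn : n = k + r) (hd : 2 * d + 1 ≤ r) :
    2 * ghat n k + n * d ≤ n * (n - 1) + 1 := by
  obtain ⟨R, k1, k2⟩ := near_regular (V := Fin n) (d := d) (by simp; omega)
  have := ghat_upper hn (Fintype.card_fin n) (H := R) fun x y h =>
    (cond_of_le k1 x y h).trans (Nat.add_le_add_right hd _)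
  rw [Fintype.card_fin] at k2
  omega

theorem nm1 {K u D n' : ℕ} (hK : 0 < K) (h : K * K * (D * D) < (K + 1) * (K + 1) * u * (n' + 1)) :
    D * D ≤ 4 * u * (n' + 1) := by
  refine Nat.le_of_mul_le_mul_left (h.le.trans ?_) (Nat.mul_pos hK hK)
  have h1 : K + 1 ≤ 2 * K := by omega
  nlinarith [Nat.mul_le_mul_right (u * (n' + 1)) (Nat.mul_le_mul h1 h1)]

theorem nm2 {K C n D : ℕ} (h : D * D ≤ C * n) (hn : (K + 1) * C < D) : (K + 1) * D < n := by
  by_contra c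
  have c1 := Nat.mul_le_mul_left C (not_lt.1 c)
  nlinarith

theorem nm3 {j x y u U : ℕ} (h : (4 * j + 3) * (4 * j + 3) * x <
    (4 * j + 3 + 1) * (4 * j + 3 + 1) * (y + u)) (hu : u ≤ U) (hx : 2 * (j + 1) * (U + 1) ≤ x) :
    j * x + (j + 1) ≤ (j + 1) * y := by
  have h1 : (8 * j + 8) * ((2 * j + 1) * x) ≤ (8 * j + 8) * (2 * (j + 1) * (y + u)) := by
    nlinarith [Nat.zero_le x]
  have h2 := Nat.le_of_mul_le_mul_left h1 (by omega)
  nlinarith [Nat.mul_le_mul_left (j + 1) hu]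

theorem nm4 {K u n n' x : ℕ} (h1 : (K + 1) * (K + 1) * u * n' ≤ K * K * x)
    (h2 : K * x ≤ (K + 1) * (u * n)) (hu : 0 < u) : (K + 1) * n' ≤ K * n := by
  refine Nat.le_of_mul_le_mul_left ?_ (Nat.mul_pos (Nat.succ_pos K) hu)
  nlinarith [Nat.mul_le_mul_left K h2]

theorem nm5 {K u n' x : ℕ} (h1 : (K + 1) * (K + 1) * u * n' ≤ K * K * x) :
    (K + 1) * (u * n') ≤ K * x := by
  refine Nat.le_of_mul_le_mul_left ?_ (Nat.succ_pos K)
  nlinarith [Nat.zero_le (K * x)]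

theorem up_main (C j : ℕ) : ∃ r₀, ∀ n k D e : ℕ, r₀ ≤ D + e + 1 → n = k + (D + e + 1) →
    (D + e + 1) ^ 2 ≤ C * n → 2 * ghat n k + n * D ≤ n * (n - 1) + 1 ∨
      (j + 1) * (2 * ghat n k + n * e) + j * (D * D) ≤ (j + 1) * (n * (n - 1) + 1) := by
  obtain ⟨K, hK⟩ : ∃ K, K = 4 * j + 3 := ⟨_, rfl⟩
  obtain ⟨U, hU⟩ : ∃ U, U = 2 * C + 3 := ⟨_, rfl⟩
  choose d₀ hd₀ using fun u => almost u (8 * U + C) K (by omega)
  obtain ⟨d₂, hd₂⟩ : ∃ d₂, d₂ = (range U).sup d₀ + 4 * U + (K + 1) * C +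
    2 * (j + 1) * (U + 1) + 1 := ⟨_, rfl⟩
  refine ⟨2 * d₂, fun n k D e hr0 hk hr => ?_⟩
  by_cases c1 : D ≤ e
  · exact Or.inl (up_reg hk (by omega))
  have r2 : D * D ≤ C * n := le_trans (by nlinarith) hr
  obtain ⟨u, hu⟩ : ∃ u, D = e + u := ⟨D - e, by omega⟩
  have u0 : 0 < u := by omega
  by_cases c3 : U ≤ u
  · have h1 := Nat.mul_le_mul_left (j + 1) (up_reg (d := C + e) hk (by omega))
    have h2 := Nat.mul_le_mul (Nat.le_succ j) r2
    refine Or.inr (le_trans ?_ h1)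
    nlinarith
  have d1 : d₀ u ≤ D := le_trans (le_sup (f := d₀) (mem_range.2 (not_le.1 c3))) (by omega)
  by_cases c4 : (K + 1) * (u * n) ≤ K * (D * D)
  · obtain ⟨M, h1, h2, h3⟩ := hd₀ u D n d1 (r2.trans (Nat.mul_le_mul_right _ (by omega))) c4
    have := ghat_upper hk (Fintype.card_fin n) (cond_paths h1 h2 (by omega))
    exact Or.inl (by omega)
  have b1 := Nat.mul_div_le (K * K * (D * D)) ((K + 1) * (K + 1) * u)
  have b2 := Nat.lt_mul_div_succ (K * K * (D * D)) (show 0 < (K + 1) * (K + 1) * u by positivity)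
  generalize K * K * (D * D) / ((K + 1) * (K + 1) * u) = n' at b1 b2
  have b4 := (nm1 (by omega) b2).trans
    (Nat.mul_le_mul_right _ (show 4 * u ≤ 4 * U by omega))
  have b0 := Nat.le_mul_self D
  have b5 : 1 ≤ n' := by
    by_contra c
    obtain rfl : n' = 0 := by omega
    omega
  have b6 := nm4 b1 (not_le.1 c4).le u0
  have b7 := nm2 (K := K) r2 (by omega)
  have b8 : n' + D < n := Nat.lt_of_mul_lt_mul_left (a := K + 1) (by
    rw [mul_add, add_mul K 1 n]; omega)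
  obtain ⟨M, h1, h2, h3⟩ := hd₀ u D n' d1
    (b4.trans ((Nat.mul_le_mul_left _ (show n' + 1 ≤ 2 * n' by omega)).trans (by
      rw [add_mul, ← mul_assoc, mul_right_comm 4 U 2]; exact Nat.le_add_right _ _))) (nm5 b1)
  obtain ⟨s, rfl⟩ : ∃ s, n = n' + s := ⟨n - n', by omega⟩
  obtain ⟨R, k1, k2⟩ := near_regular (V := Fin s) (d := D - u) (by simp; omega)
  have h4 := ghat_upper hk (by simp) (cond_sum' h1 h2 (by omega) (by omega) k1)
  rw [tot_sum] at h4
  rw [Fintype.card_fin, show D - u = e by omega] at k2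
  have h5 := nm3 (j := j) (y := u * n') (u := u) (U := U) (hK ▸ b2.trans_eq (by ring)) (by omega)
    (show _ ≤ D * D by omega)
  have h7 : n' * D = n' * e + u * n' := by rw [hu]; ring
  have h8 : 2 * ghat (n' + s) k + (n' + s) * e + u * n' ≤ (n' + s) * (n' + s - 1) + 2 := by
    rw [add_mul n' s e]; omega
  have h9 := Nat.mul_le_mul_left (j + 1) h8
  generalize 2 * ghat (n' + s) k + (n' + s) * e = A at h9 ⊢
  refine Or.inr ?_
  generalize (n' + s) * (n' + s - 1) = B at h9 ⊢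
  clear * - h9 h5
  nlinarith

theorem regime (C : ℕ) {ε : ℝ} (hε : 0 < ε) : ∃ r₀, ∀ n k r : ℕ, r₀ ≤ r → n = k + r →
    r ^ 2 ≤ C * n →
    (∃ D < r, n * (n - 1) ≤ 2 * ghat n k + min (n * D) (D * (D + 1) + (n - 1) * (r - 1 - D))) ∧
    (∀ D < r, (2 * ghat n k : ℝ) + min (n * D : ℝ) ((1 - ε) * D ^ 2 + n * (r - 1 - D)) ≤
      n * (n - 1) + 1) ∧
    ∀ d μ : ℕ, r + μ = 2 * d + 1 → d ^ 2 + 2 * d + 3 + μ ≤ (μ + 1) * n →
      (μ : ℝ) * n ≤ (1 - ε) * d ^ 2 → ghat n k = n.choose 2 - n * d / 2 := by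
  obtain ⟨j, hj⟩ := exists_K hε
  obtain ⟨r₀, h⟩ := up_main C j
  refine ⟨r₀ + 2 * C + 2, fun n k r hr0 hk hr => ?_⟩
  have n1 : r + 1 < n := by
    by_contra c
    have h1 := Nat.mul_le_mul_left C (show n ≤ 2 * r by omega)
    nlinarith [Nat.mul_le_mul_left r (show 2 * C + 2 ≤ r by omega)]
  have h3 : ((n - 1 : ℕ) : ℝ) = n - 1 := by rw [Nat.cast_sub (by omega), Nat.cast_one]
  have p2 : ∀ D < r, (2 * ghat n k : ℝ) + min (n * D : ℝ) ((1 - ε) * D ^ 2 + n * (r - 1 - D)) ≤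
      n * (n - 1) + 1 := by
    intro D hD
    obtain ⟨e, rfl⟩ := Nat.exists_eq_add_of_lt hD
    rw [← h3]
    rcases h n k D e (by omega) hk hr with h | h
    · refine (add_le_add_right (min_le_left _ _) _).trans ?_
      exact_mod_cast h
    · refine (add_le_add_right (min_le_right _ _) _).trans ?_
      have h2 : ((j : ℝ) + 1) * (2 * ghat n k + n * e) + j * (D * D) ≤
          (j + 1) * (n * (n - 1 : ℕ) + 1) := by exact_mod_cast h
      refine le_of_mul_le_mul_left (le_trans ?_ h2) (show (0 : ℝ) < j + 1 by positivity)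
      push_cast
      nlinarith [mul_le_mul_of_nonneg_right hj (sq_nonneg (D : ℝ))]
  refine ⟨?_, p2, fun d μ h1 a b => ?_⟩
  · obtain ⟨G, g1, g2⟩ := ghat_attained hk (by omega)
    obtain ⟨D, d1, d2, d3⟩ := tot_bound g1 (by simpa using n1)
    rw [Fintype.card_fin] at d2 d3
    have := le_min d2 d3
    exact ⟨D, d1, by omega⟩
  · have b1 : μ * n ≤ d ^ 2 := by
      have : (μ : ℝ) * n ≤ d ^ 2 := by nlinarith [mul_nonneg hε.le (sq_nonneg (d : ℝ))]
      exact_mod_cast this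
    have b2 : μ ≤ d := by
      by_contra c
      rw [add_mul] at a
      nlinarith [Nat.mul_le_mul (show d ≤ μ by omega) (show d + 1 ≤ n by omega)]
    refine exact_of hk h1 (by omega) (by omega) a ?_ ?_
    · have := Nat.mul_le_mul_right n (show C ≤ d by omega)
      nlinarith [Nat.mul_le_mul_left r (Nat.sub_le r 1)]
    · have h4 := p2 d (by omega)
      have h5 : (r : ℝ) + μ = 2 * d + 1 := by exact_mod_cast h1
      rw [min_eq_left (by rw [show (r : ℝ) - 1 - d = d - μ by linarith]; linarith), ← h3] at h4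
      exact_mod_cast h4

end Pool.Agent.MP_1dbd31_co.sq
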