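import Mathlib.Topology.Sheaves.Presheaf
import Mathlib.Tactic.Monotonicity.Lemmas
import Mathlib.Tactic.Bound
import Mathlib.Algebra.Order.Star.Real
import Mathlib.FieldTheory.Finite.GaloisField
import Mathlib.RingTheory.PiTensorProduct
import Mathlib.RingTheory.SimpleRing.Principal
import Pool.Agent.MP_1dbd31_co.Main

-- ======== part 0: formerly Pool.Agent.MP_1dbd31_co.win.Core
section MrgPart0

set_option autoImplicit false
open Finset

namespace Pool.Agent.MP_1dbd31_co.win
open Classical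

variable {V : Type} [Fintype V]

/-- neighbours -/
noncomputable def nb (G : SimpleGraph V) (x : V) : Finset V := univ.filter (G.Adj x)

@[simp] theorem mem_nb {G : SimpleGraph V} {x y : V} : y ∈ nb G x ↔ G.Adj x y := by simp [nb]

/-- every pair is joined by `k` independent paths of length at most two -/
def Good (G : SimpleGraph V) (k : ℕ) : Prop :=
  ∀ x y, x ≠ y → k ≤ (if G.Adj x y then 1 else 0) + (nb G x ∩ nb G y).card

/-- degree sum -/
noncomputable def ds (G : SimpleGraph V) : ℕ := ∑ x, (nb G x).card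

theorem nb_mono {G H : SimpleGraph V} (h : G ≤ H) (x : V) : nb G x ⊆ nb H x :=
  fun _ hy => mem_nb.2 (h (mem_nb.1 hy))

theorem Good.mono {G H : SimpleGraph V} {k : ℕ} (hG : Good G k) (h : G ≤ H) : Good H k := by
  intro x y hxy
  refine (hG x y hxy).trans (add_le_add ?_ (card_le_card (inter_subset_inter (nb_mono h x)
    (nb_mono h y))))
  split_ifs with h1 h2
  exacts [le_rfl, absurd (h h1) h2, zero_le_one, le_rfl]

theorem ds_eq (G : SimpleGraph V) : ds G = 2 * G.edgeSet.ncard := by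
  have h := G.sum_degrees_eq_twice_card_edges
  have e : G.edgeSet.ncard = G.edgeFinset.card := by
    rw [← SimpleGraph.coe_edgeFinset, Set.ncard_coe_finset]
  rw [e, ← h, ds]
  refine sum_congr rfl fun x _ => ?_
  rw [← SimpleGraph.card_neighborFinset_eq_degree]
  congr 1
  ext y
  simp

theorem sum_nb (G : SimpleGraph V) (x : V) :
    ∑ z ∈ nb G x, (nb G z).card = ∑ y, (nb G x ∩ nb G y).card := by
  have h1 : ∀ y, (nb G x ∩ nb G y).card = ∑ z ∈ nb G x, if G.Adj z y then 1 else 0 := by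
    intro y
    rw [← card_filter]
    congr 1
    ext z
    simp [G.adj_comm]
  simp_rw [h1]
  rw [sum_comm]
  refine sum_congr rfl fun z _ => ?_
  rw [nb, card_filter]

theorem Good.sum_ge {G : SimpleGraph V} {k : ℕ} (hG : Good G k) (x : V) :
    (Fintype.card V - 1) * k ≤ ∑ z ∈ nb G x, (nb G z).card := by
  rw [sum_nb, ← add_sum_erase _ _ (mem_univ x), inter_self]
  have h1 : (nb G x).card = ∑ y ∈ univ.erase x, if G.Adj x y then 1 else 0 := by
    rw [← card_filter]
    congr 1
    ext y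
    simp only [mem_nb, mem_filter, mem_erase, mem_univ, and_true]
    exact ⟨fun h => ⟨h.ne', h⟩, fun h => h.2⟩
  rw [h1, ← sum_add_distrib]
  have h2 : (Fintype.card V - 1) * k = ∑ _y ∈ univ.erase x, k := by
    rw [sum_const, card_erase_of_mem (mem_univ x), card_univ, smul_eq_mul]
  rw [h2]
  exact sum_le_sum fun y hy => hG x y (ne_of_mem_erase hy).symm

theorem Good.le_deg {G : SimpleGraph V} {k : ℕ} (hG : Good G k) (h2 : 2 ≤ Fintype.card V)
    (x : V) : k ≤ (nb G x).card := by
  obtain ⟨y, hy⟩ := Fintype.exists_ne_of_one_lt_card (by omega) x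
  refine (hG x y hy.symm).trans ?_
  split_ifs with h
  · have : insert y (nb G x ∩ nb G y) ⊆ nb G x :=
      insert_subset (mem_nb.2 h) inter_subset_left
    have h3 := card_le_card this
    rw [card_insert_of_notMem (by simp)] at h3
    omega
  · rw [zero_add]
    exact card_le_card inter_subset_left

/-- the lower bound for the degree sum -/
theorem Good.lower {G : SimpleGraph V} {k n D : ℕ} (hG : Good G k) (hn : Fintype.card V = n)
    (h2 : 2 ≤ n) (h1 : (n : ℤ) * D ≤ (n - 1) * k + (n - k) * k)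
    (h3 : (n : ℤ) * D ≤ (n - 1) * k + (n - (D - 1)) * (D - 1)) : n * D ≤ ds G := by
  have : Nonempty V := Fintype.card_pos_iff.1 (by omega)
  obtain ⟨x, -, hx⟩ := exists_min_image univ (fun x => (nb G x).card) univ_nonempty
  set δ := (nb G x).card with hδ
  by_cases hD : D ≤ δ
  · have : ∑ _x : V, D ≤ ds G := sum_le_sum fun y hy => hD.trans (hx y hy)
    rwa [sum_const, card_univ, hn, smul_eq_mul] at this
  have hk : k ≤ δ := hG.le_deg (by omega) x
  have a1 := hG.sum_ge x
  have a2 : (n - δ) * δ ≤ ∑ z ∈ (nb G x)ᶜ, (nb G z).card := by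
    have : ∑ _z ∈ (nb G x)ᶜ, δ ≤ ∑ z ∈ (nb G x)ᶜ, (nb G z).card :=
      sum_le_sum fun y _ => hx y (mem_univ y)
    rwa [sum_const, card_compl, hn, smul_eq_mul] at this
  have a3 : ds G = ∑ z ∈ nb G x, (nb G z).card + ∑ z ∈ (nb G x)ᶜ, (nb G z).card :=
    (sum_add_sum_compl _ _).symm
  have a4 : δ ≤ n := by rw [← hn]; exact card_le_univ _
  rw [hn] at a1
  have a5 : (n - 1) * k + (n - δ) * δ ≤ ds G := by omega
  have a6 : ((n : ℤ) - 1) * k + (n - δ) * δ ≤ ds G := by
    have := (Int.ofNat_le.2 a5)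
    push_cast [Nat.cast_sub a4, Nat.cast_sub (show 1 ≤ n by omega)] at this
    exact this
  have b1 : (k : ℤ) ≤ δ := by exact_mod_cast hk
  have b2 : (δ : ℤ) ≤ D - 1 := by omega
  have : (n : ℤ) * D ≤ ds G := by
    by_cases hc : (δ : ℤ) + k ≤ n
    · nlinarith [mul_nonneg (sub_nonneg.2 b1) (sub_nonneg.2 hc)]
    · have : (0 : ℤ) ≤ δ + (D - 1) - n := by omega
      nlinarith [mul_nonneg (sub_nonneg.2 b2) this]
  exact_mod_cast this

theorem nb_compl (H : SimpleGraph V) (x : V) : nb Hᶜ x = (insert x (nb H x))ᶜ := by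
  ext y
  simp only [mem_nb, SimpleGraph.compl_adj, mem_compl, mem_insert, not_or]
  exact ⟨fun h => ⟨h.1.symm, h.2⟩, fun h => ⟨Ne.symm h.1, h.2⟩⟩

theorem ds_compl (H : SimpleGraph V) :
    ds Hᶜ + ds H + Fintype.card V = Fintype.card V * Fintype.card V := by
  have : ∀ x, (nb Hᶜ x).card + (nb H x).card + 1 = Fintype.card V := by
    intro x
    have h := card_add_card_compl (insert x (nb H x))
    rw [card_insert_of_notMem (by simp)] at h
    rw [nb_compl]
    omega
  have h2 : ∑ x, ((nb Hᶜ x).card + (nb H x).card + 1) = ∑ _x : V, Fintype.card V :=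
    sum_congr rfl fun x _ => this x
  simpa [sum_add_distrib, ds] using h2

/-- the complement of a good graph of bounded degree is good -/
theorem Good.compl {H : SimpleGraph V} {μ d k : ℕ} (hH : Good H μ) (hd : ∀ x, (nb H x).card ≤ d)
    (hk : k + 2 * d + 1 ≤ Fintype.card V + μ) : Good Hᶜ k := by
  intro x y hxy
  have h1 := hH x y hxy
  have h2 := card_union_add_card_inter (nb H x) (nb H y)
  have h3 := hd x
  have h4 := hd y
  rw [nb_compl, nb_compl, ← compl_union]
  have h5 := card_add_card_compl (insert x (nb H x) ∪ insert y (nb H y))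
  by_cases h : H.Adj x y
  · have e : insert x (nb H x) ∪ insert y (nb H y) = nb H x ∪ nb H y := by
      ext z
      simp only [mem_union, mem_insert, mem_nb]
      constructor
      · rintro ((rfl | h') | (rfl | h'))
        exacts [Or.inr h.symm, Or.inl h', Or.inl h, Or.inr h']
      · rintro (h' | h')
        exacts [Or.inl (Or.inr h'), Or.inr (Or.inr h')]
    rw [e] at h5 ⊢
    rw [if_pos h] at h1
    omega
  · have e : (insert x (nb H x) ∪ insert y (nb H y)).card ≤ (nb H x ∪ nb H y).card + 2 := by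
      rw [insert_union, union_insert]
      exact (card_insert_le _ _).trans (by have := card_insert_le y (nb H x ∪ nb H y); omega)
    rw [if_neg h] at h1
    rw [if_pos ((SimpleGraph.compl_adj _ _ _).2 ⟨hxy, h⟩)]
    omega

end Pool.Agent.MP_1dbd31_co.win

end MrgPart0

-- ======== part 1: formerly Pool.Agent.MP_1dbd31_co.win.Fix
section MrgPart1

set_option autoImplicit false
open Finset SimpleGraph

namespace Pool.Agent.MP_1dbd31_co.win
open Classical

variable {V : Type} [Fintype V]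

theorem exists_grp {C : Type} (κ : V → Option C) {a : ℕ} (ha : 0 < a)
    (h1 : ∀ c, (univ.filter fun v => κ v = some c).card ≤ a * a) :
    ∃ γ : V → Fin a, ∀ c i, (univ.filter fun v => κ v = some c ∧ γ v = i).card ≤ a := by
  have e : ∀ c, ∃ e : V → Fin a × Fin a, ∀ u v, κ u = some c → κ v = some c → e u = e v → u = v := by
    intro c
    obtain ⟨f⟩ := Function.Embedding.nonempty_of_card_le (α := {v // κ v = some c})
      (β := Fin a × Fin a) (by rw [Fintype.card_subtype]; simpa using h1 c)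
    refine ⟨fun v => if h : κ v = some c then f ⟨v, h⟩ else (⟨0, ha⟩, ⟨0, ha⟩),
      fun u v hu hv h => ?_⟩
    simp only [dif_pos hu, dif_pos hv] at h
    exact congrArg Subtype.val (f.injective h)
  choose e he using e
  refine ⟨fun v => (κ v).elim ⟨0, ha⟩ fun c => (e c v).1, fun c i => ?_⟩
  refine le_trans (card_le_card_of_injOn (t := univ) (fun v => (e c v).2) (fun _ _ => mem_univ _)
    ?_) (by simp)
  intro u hu v hv h
  simp only [coe_filter, mem_univ, true_and, Set.mem_ofPred_eq] at hu hv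
  refine he c u v hu.1 hv.1 (Prod.ext ?_ h)
  have a1 := hu.2
  have a2 := hv.2
  rw [hu.1] at a1
  rw [hv.1] at a2
  exact a1.trans a2.symm

theorem exists_hub (T : Type) [Fintype T] {M j : ℕ} (h2 : Fintype.card T ≤ M * Fintype.card V)
    (h3 : j ≤ Fintype.card V) (h0 : 0 < Fintype.card V) :
    ∃ η : T → Fin j → V, (∀ t, Function.Injective (η t)) ∧
      ∀ x, (univ.filter fun p : T × Fin j => η p.1 p.2 = x).card ≤ M * j := by
  have : NeZero (Fintype.card V) := ⟨h0.ne'⟩
  obtain ⟨ψ⟩ := Function.Embedding.nonempty_of_card_le (α := T)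
    (β := Fin M × Fin (Fintype.card V)) (by simpa using h2)
  let e := Fintype.equivFin V
  refine ⟨fun t l => e.symm ((ψ t).2 + Fin.castLE h3 l), fun t l l' h => ?_, fun x => ?_⟩
  · exact Fin.castLE_injective h3 (add_left_cancel (e.symm.injective h))
  · refine le_trans (card_le_card_of_injOn (t := (univ : Finset (Fin M × Fin j)))
      (fun p => ((ψ p.1).1, p.2)) (fun _ _ => mem_univ _) ?_) (by simp)
    rintro ⟨t, l⟩ hu ⟨t', l'⟩ hv h
    simp only [coe_filter, mem_univ, true_and, Set.mem_ofPred_eq] at hu hv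
    obtain ⟨a1, a2⟩ := Prod.mk.inj h
    have a3 : l = l' := a2
    subst a3
    have a4 := add_right_cancel (e.symm.injective (hu.trans hv.symm))
    have a5 : t = t' := ψ.injective (Prod.ext a1 a4)
    rw [a5]

/-- a sparse graph that gives many common neighbours to the pairs inside small classes -/
theorem fix {C : Type} [Fintype C] (κ : V → Option C) {a M μ : ℕ} (ha : 0 < a)
    (h1 : ∀ c, (univ.filter fun v => κ v = some c).card ≤ a * a)
    (h2 : Fintype.card C * (a * a) ≤ M * Fintype.card V) (h3 : μ + 2 ≤ Fintype.card V) :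
    ∃ F : SimpleGraph V, (∀ x, (nb F x).card ≤ 2 * a * (μ + 2) * (M + 1)) ∧
      ∀ u v c, κ u = some c → κ v = some c → μ ≤ (nb F u ∩ nb F v).card := by
  obtain ⟨γ, hγ⟩ := exists_grp κ ha h1
  obtain ⟨η, hη, hf⟩ := exists_hub (V := V) (C × Fin a × Fin a) (M := M) (j := μ + 2)
    (by simpa using h2) h3 (by omega)
  let R : V → V → Prop := fun v h => ∃ c g l, κ v = some c ∧
    (η (c, γ v, g) l = h ∨ η (c, g, γ v) l = h)
  refine ⟨fromRel R, fun x => ?_, fun u v c hu hv => ?_⟩
  · have s1 : nb (fromRel R) x ⊆ univ.filter (R x) ∪ univ.filter (fun v => R v x) := by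
      intro y hy
      have := ((fromRel_adj _ _ _).1 (mem_nb.1 hy)).2
      simpa using this
    have s2 : (univ.filter (R x)).card ≤ 2 * a * (μ + 2) := by
      rcases Option.eq_none_or_eq_some (κ x) with hx | ⟨c, hx⟩
      · have : univ.filter (R x) = ∅ := by
          ext y
          simp [R, hx]
        simp [this]
      · have : univ.filter (R x) ⊆
            univ.image (fun p : Fin a × Fin (μ + 2) => η (c, γ x, p.1) p.2) ∪
            univ.image (fun p : Fin a × Fin (μ + 2) => η (c, p.1, γ x) p.2) := by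
          intro y hy
          obtain ⟨c', g, l, e, h⟩ := (mem_filter.1 hy).2
          obtain rfl : c = c' := Option.some.inj (hx.symm.trans e)
          rw [mem_union]
          exact h.imp (fun h => mem_image.2 ⟨(g, l), mem_univ _, h⟩)
            fun h => mem_image.2 ⟨(g, l), mem_univ _, h⟩
        refine (card_le_card this).trans ((card_union_le _ _).trans ?_)
        refine (add_le_add card_image_le card_image_le).trans (le_of_eq ?_)
        simp
        ring
    have s3 : (univ.filter (fun v => R v x)).card ≤ M * (μ + 2) * (2 * a) := by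
      have : univ.filter (fun v => R v x) ⊆
          (univ.filter fun p : (C × Fin a × Fin a) × Fin (μ + 2) => η p.1 p.2 = x).biUnion
            fun p => (univ.filter fun v => κ v = some p.1.1 ∧ γ v = p.1.2.1) ∪
              (univ.filter fun v => κ v = some p.1.1 ∧ γ v = p.1.2.2) := by
        intro y hy
        obtain ⟨c', g, l, e, h | h⟩ := (mem_filter.1 hy).2
        · exact mem_biUnion.2 ⟨((c', γ y, g), l), mem_filter.2 ⟨mem_univ _, h⟩,
            mem_union_left _ (mem_filter.2 ⟨mem_univ _, e, rfl⟩)⟩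
        · exact mem_biUnion.2 ⟨((c', g, γ y), l), mem_filter.2 ⟨mem_univ _, h⟩,
            mem_union_right _ (mem_filter.2 ⟨mem_univ _, e, rfl⟩)⟩
      refine (card_le_card this).trans ((card_biUnion_le_card_mul _ _ (2 * a) fun p _ => ?_).trans
        (Nat.mul_le_mul_right _ (hf x)))
      refine (card_union_le _ _).trans ?_
      have := hγ p.1.1 p.1.2.1
      have := hγ p.1.1 p.1.2.2
      omega
    have := (card_le_card s1).trans (card_union_le _ _)
    nlinarith
  · have s1 : ((univ.image (η (c, γ u, γ v))).erase u).erase v ⊆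
        nb (fromRel R) u ∩ nb (fromRel R) v := by
      intro y hy
      simp only [mem_erase, mem_image, mem_univ, true_and] at hy
      obtain ⟨n1, n2, l, e⟩ := hy
      rw [mem_inter, mem_nb, mem_nb, fromRel_adj, fromRel_adj]
      exact ⟨⟨n2.symm, Or.inl ⟨c, γ v, l, hu, Or.inl e⟩⟩,
        ⟨n1.symm, Or.inl ⟨c, γ u, l, hv, Or.inr e⟩⟩⟩
    have s2 := card_le_card s1
    have s3 := pred_card_le_card_erase (s := (univ.image (η (c, γ u, γ v))).erase u) (a := v)
    have s4 := pred_card_le_card_erase (s := univ.image (η (c, γ u, γ v))) (a := u)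
    rw [card_image_of_injective _ (hη _), card_univ, Fintype.card_fin] at s4
    omega

end Pool.Agent.MP_1dbd31_co.win

end MrgPart1

-- ======== part 2: formerly Pool.Agent.MP_1dbd31_co.win.Dm
section MrgPart2

set_option autoImplicit false
open Finset

namespace Pool.Agent.MP_1dbd31_co.win
open Classical

/-- a symmetric difference matrix with a small exceptional set -/
structure DM (N μ r w : ℕ) : Type 1 where
  X : Type
  A : Type
  ι : Type
  [fX : Fintype X]
  [fA : Fintype A]
  [fι : Fintype ι]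
  [gA : AddCommGroup A]
  f : X → X → A
  κ : ι → X → Fin w
  symm : ∀ x z, f x z = f z x
  cX : Fintype.card X = N
  cA : Fintype.card A * μ = N
  cι : Fintype.card ι = r
  hit : ∀ x x' α, (∀ i, κ i x ≠ κ i x') → μ ≤ (univ.filter fun z => f x z - f x' z = α).card
  fib : ∀ i c, w * (univ.filter fun x => κ i x = c).card ≤ 2 * N
  loop : w * (univ.filter fun p : X × A => p.2 + p.2 = f p.1 p.1).card ≤ N * Fintype.card A

attribute [instance] DM.fX DM.fA DM.fι DM.gA

theorem exists_label (X : Type) [Fintype X] {w : ℕ} (hw : 0 < w) (h : w ≤ Fintype.card X) :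
    ∃ κ : X → Fin w, ∀ c, w * (univ.filter fun x => κ x = c).card ≤ 2 * Fintype.card X := by
  let e := Fintype.equivFin X
  refine ⟨fun x => ⟨(e x : ℕ) % w, Nat.mod_lt _ hw⟩, fun c => ?_⟩
  have h1 : (univ.filter fun x => (⟨(e x : ℕ) % w, Nat.mod_lt _ hw⟩ : Fin w) = c).card ≤
      (range (Fintype.card X / w + 1)).card := by
    refine card_le_card_of_injOn (fun x => (e x : ℕ) / w) (fun x _ => ?_) ?_
    · simp only [coe_range, Set.mem_Iio]
      exact Nat.lt_succ_of_le (Nat.div_le_div_right (e x).2.le)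
    · intro x hx y hy hxy
      simp only [coe_filter, mem_univ, true_and, Set.mem_ofPred_eq] at hx hy
      have a1 : (e x : ℕ) % w = (e y : ℕ) % w := congrArg Fin.val (hx.trans hy.symm)
      have a2 : (e x : ℕ) / w = (e y : ℕ) / w := hxy
      apply e.injective
      apply Fin.ext
      rw [← Nat.div_add_mod (e x) w, ← Nat.div_add_mod (e y) w, a1, a2]
  rw [card_range] at h1
  have h2 := Nat.mul_div_le (Fintype.card X) w
  have h3 := Nat.mul_le_mul_left w h1
  rw [mul_add, mul_one] at h3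
  exact le_trans h3 (by omega)

/-- a field and a quotient of its additive group -/
theorem field_fac (F : Type) [Field F] [Fintype F] (Γ : AddSubgroup F) {x x' : F} (h : x ≠ x')
    (α : F ⧸ Γ) : Nat.card Γ ≤ (univ.filter fun z =>
      (QuotientAddGroup.mk (x * z) : F ⧸ Γ) - QuotientAddGroup.mk (x' * z) = α).card := by
  obtain ⟨a, rfl⟩ := QuotientAddGroup.mk_surjective α
  have h0 : x - x' ≠ 0 := sub_ne_zero.2 h
  rw [Nat.card_eq_fintype_card, ← card_univ]
  refine card_le_card_of_injOn (fun γ => (x - x')⁻¹ * (a + γ)) (fun γ _ => ?_) ?_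
  · simp only [coe_filter, mem_univ, true_and, Set.mem_ofPred_eq]
    rw [← QuotientAddGroup.mk_sub, ← sub_mul, mul_inv_cancel_left₀ h0, QuotientAddGroup.mk_add,
      (QuotientAddGroup.eq_zero_iff (γ : F)).2 γ.2, add_zero]
  · intro γ _ γ' _ e
    exact Subtype.ext (add_left_cancel (mul_left_cancel₀ (inv_ne_zero h0) e))

/-- the first factor -/
theorem dm_base {w b : ℕ} (hw : 0 < w) (hb : b ≠ 0) (h : w ≤ 3 ^ b) :
    Nonempty (DM (3 ^ b) 1 1 w) := by
  have : Fact (Nat.Prime 3) := ⟨Nat.prime_three⟩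
  let F := GaloisField 3 b
  have : Fintype F := Fintype.ofFinite F
  have cF : Fintype.card F = 3 ^ b := by
    rw [← Nat.card_eq_fintype_card]; exact GaloisField.card 3 b hb
  obtain ⟨κ, hκ⟩ := exists_label F hw (cF ▸ h)
  refine ⟨{ X := F, A := F, ι := Unit, f := fun x z => x * z, κ := fun _ => κ
            symm := mul_comm, cX := cF, cA := by rw [cF, mul_one], cι := by simp
            hit := fun x x' α hx => ?_, fib := fun _ c => cF ▸ hκ c, loop := ?_ }⟩
  · have h0 : x - x' ≠ 0 := sub_ne_zero.2 fun e => hx () (by rw [e])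
    refine card_pos.2 ⟨(x - x')⁻¹ * α, ?_⟩
    simp only [mem_filter, mem_univ, true_and]
    rw [← sub_mul, mul_inv_cancel_left₀ h0]
  · rw [mul_comm (3 ^ b)]
    refine (mul_comm _ _).trans_le (Nat.mul_le_mul ?_ h)
    rw [← card_univ]
    refine card_le_card_of_injOn Prod.fst (fun _ _ => mem_univ _) ?_
    rintro ⟨x, y⟩ h1 ⟨x', y'⟩ h2 e
    simp only [coe_filter, mem_univ, true_and, Set.mem_ofPred_eq] at h1 h2
    obtain rfl : x = x' := e
    have h3 : (3 : F) = 0 := by exact_mod_cast CharP.cast_eq_zero F 3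
    have : y = y' := by linear_combination (-1 : F) * h1 + h2 + (y - y') * h3
    rw [this]

/-- one more factor -/
theorem dm_mul {N μ r w : ℕ} (D : DM N μ r w) (hw : 0 < w) (F : Type) [Field F] [Fintype F]
    (Γ : AddSubgroup F) (h : w ≤ Fintype.card F) :
    Nonempty (DM (N * Fintype.card F) (μ * Nat.card Γ) (r + 1) w) := by
  obtain ⟨κ, hκ⟩ := exists_label F hw h
  have : Fintype (F ⧸ Γ) := Fintype.ofFinite _
  have cq : Fintype.card (F ⧸ Γ) * Nat.card Γ = Fintype.card F := by
    rw [← Nat.card_eq_fintype_card, ← Nat.card_eq_fintype_card]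
    exact (AddSubgroup.card_eq_card_quotient_mul_card_addSubgroup Γ).symm
  refine ⟨{ X := D.X × F, A := D.A × (F ⧸ Γ), ι := Option D.ι
            f := fun x z => (D.f x.1 z.1, QuotientAddGroup.mk (x.2 * z.2))
            κ := fun i x => i.elim (κ x.2) fun j => D.κ j x.1
            symm := fun x z => by rw [D.symm, mul_comm]
            cX := by rw [Fintype.card_prod, D.cX]
            cA := by rw [Fintype.card_prod, mul_mul_mul_comm, D.cA, cq]
            cι := by rw [Fintype.card_option, D.cι]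
            hit := fun x x' α hx => ?_, fib := fun i c => ?_, loop := ?_ }⟩
  · have h1 := D.hit x.1 x'.1 α.1 fun i => hx (some i)
    have h2 := field_fac F Γ (x := x.2) (x' := x'.2) (fun e => hx none (by simp [e])) α.2
    refine (Nat.mul_le_mul h1 h2).trans ?_
    rw [← card_product]
    refine card_le_card fun z hz => ?_
    simp only [mem_product, mem_filter, mem_univ, true_and] at hz ⊢
    exact Prod.ext hz.1 hz.2
  · cases i with
    | none =>
      have : (univ.filter fun x : D.X × F => κ x.2 = c) =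
          univ ×ˢ (univ.filter fun x => κ x = c) := by ext; simp
      simp only [Option.elim]
      rw [this, card_product, card_univ, D.cX]
      have := Nat.mul_le_mul_left N (hκ c)
      nlinarith
    | some j =>
      have : (univ.filter fun x : D.X × F => D.κ j x.1 = c) =
          (univ.filter fun x => D.κ j x = c) ×ˢ univ := by ext; simp
      simp only [Option.elim]
      rw [this, card_product, card_univ]
      have := Nat.mul_le_mul_right (Fintype.card F) (D.fib j c)
      nlinarith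
  · have h1 : (univ.filter fun p : (D.X × F) × D.A × (F ⧸ Γ) => p.2 + p.2 =
        (D.f p.1.1 p.1.1, (QuotientAddGroup.mk (p.1.2 * p.1.2) : F ⧸ Γ))).card ≤
        ((univ.filter fun p : D.X × D.A => p.2 + p.2 = D.f p.1 p.1) ×ˢ
          (univ : Finset (F × (F ⧸ Γ)))).card := by
      refine card_le_card_of_injOn (fun p => ((p.1.1, p.2.1), (p.1.2, p.2.2))) (fun p hp => ?_) ?_
      · simp only [coe_filter, mem_univ, true_and, Set.mem_ofPred_eq] at hp
        simp only [coe_product, coe_filter, mem_univ, true_and, coe_univ, Set.mem_prod,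
          Set.mem_ofPred_eq, Set.mem_univ, and_true]
        exact congrArg Prod.fst hp
      · rintro ⟨⟨a, b⟩, c, d⟩ _ ⟨⟨a', b'⟩, c', d'⟩ _ e
        simp only [Prod.mk.injEq] at e ⊢
        exact ⟨⟨e.1.1, e.2.1⟩, e.1.2, e.2.2⟩
    rw [card_product, card_univ, Fintype.card_prod] at h1
    rw [Fintype.card_prod]
    have h2 := Nat.mul_le_mul_right (Fintype.card F * Fintype.card (F ⧸ Γ)) D.loop
    have h3 := Nat.mul_le_mul_left w h1
    refine le_trans (le_of_eq (by congr)) (h3.trans ?_)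
    rw [← mul_assoc]
    exact h2.trans (le_of_eq (by ring))

theorem dm_prime {N μ r w : ℕ} (D : DM N μ r w) (hw : 0 < w) {p e : ℕ} (hp : p.Prime)
    (he : e ≠ 0) (h : w ≤ p ^ e) :
    Nonempty (DM (N * p ^ e) μ (r + 1) w) ∧ Nonempty (DM (N * p ^ e) (μ * p) (r + 1) w) := by
  have : Fact p.Prime := ⟨hp⟩
  let F := GaloisField p e
  have : Fintype F := Fintype.ofFinite F
  have cF : Fintype.card F = p ^ e := by
    rw [← Nat.card_eq_fintype_card]; exact GaloisField.card p e he
  constructor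
  · have := dm_mul D hw F ⊥ (cF ▸ h)
    rwa [cF, AddSubgroup.card_bot, mul_one] at this
  · have := dm_mul D hw F (AddSubgroup.zmultiples 1) (cF ▸ h)
    rwa [cF, Nat.card_zmultiples, CharP.eq F (CharP.addOrderOf_one F) (inferInstance : CharP F p)]
      at this

/-- difference matrices of index `μ` and order `P 2^a 3^b` -/
theorem dm_all {μ w : ℕ} (hμ : 0 < μ) (hw : 0 < w) : ∃ P r : ℕ, 0 < P ∧ r ≤ μ + 1 ∧
    ∀ a b, w ≤ a → w ≤ b → Nonempty (DM (3 ^ b * 2 ^ a * P) μ r w) := by
  induction μ using induction_on_primes with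
  | zero => omega
  | one =>
    refine ⟨1, 2, one_pos, le_rfl, fun a b ha hb => ?_⟩
    obtain ⟨D⟩ := dm_base hw (b := b) (by omega) (hb.trans (Nat.lt_pow_self (by norm_num)).le)
    rw [mul_one]
    exact (dm_prime D hw Nat.prime_two (e := a) (by omega)
      (ha.trans (Nat.lt_pow_self (by norm_num)).le)).1
  | prime_mul p m hp ih =>
    have hm : 0 < m := Nat.pos_of_mul_pos_left hμ
    obtain ⟨P, r, hP, hr, h⟩ := ih hm
    refine ⟨P * p ^ w, r + 1, mul_pos hP (pow_pos hp.pos _), ?_, fun a b ha hb => ?_⟩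
    · have := Nat.mul_le_mul_right m hp.two_le
      omega
    · obtain ⟨D⟩ := h a b ha hb
      rw [← mul_assoc, mul_comm p m]
      exact (dm_prime D hw hp (e := w) (by omega) (Nat.lt_pow_self hp.one_lt).le).2

end Pool.Agent.MP_1dbd31_co.win

end MrgPart2

-- ======== part 3: formerly Pool.Agent.MP_1dbd31_co.win.Blow
section MrgPart3

set_option autoImplicit false
open Finset SimpleGraph

namespace Pool.Agent.MP_1dbd31_co.win
open Classical

/-- all labellings at once -/
theorem fix_all {V ι : Type} [Fintype V] [Fintype ι] {w : ℕ} (κ : ι → V → Option (Fin w))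
    {a M μ : ℕ} (ha : 0 < a)
    (h1 : ∀ i c, (univ.filter fun v => κ i v = some c).card ≤ a * a)
    (h2 : w * (a * a) ≤ M * Fintype.card V) (h3 : μ + 2 ≤ Fintype.card V) :
    ∃ F : SimpleGraph V, (∀ x, (nb F x).card ≤ Fintype.card ι * (2 * a * (μ + 2) * (M + 1))) ∧
      ∀ i u v c, κ i u = some c → κ i v = some c → μ ≤ (nb F u ∩ nb F v).card := by
  have := fun i => fix (κ i) ha (fun c => by convert h1 i c) (M := M) (μ := μ) (by simpa using h2) h3
  choose F hF hG using this
  refine ⟨⨆ i, F i, fun x => ?_, fun i u v c hu hv => (hG i u v c hu hv).trans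
    (card_le_card (inter_subset_inter (nb_mono (le_iSup F i) u) (nb_mono (le_iSup F i) v)))⟩
  have : nb (⨆ i, F i) x ⊆ univ.biUnion fun i => nb (F i) x := by
    intro y hy
    simpa [iSup_adj] using hy
  exact (card_le_card this).trans (card_biUnion_le_card_mul _ _ _ fun i _ => hF i x)

theorem card_two {V X A : Type} [Fintype V] [Fintype X] [Fintype A] {t : ℕ} (j : Fin t ↪ X)
    {φ : V → (X ⊕ Fin t) × A} (hφ : Function.Injective φ) (Q : Finset V) (P : Finset (X × A))
    (h : ∀ v ∈ Q, (Sum.elim id j (φ v).1, (φ v).2) ∈ P) : Q.card ≤ 2 * P.card := by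
  have : Q.card ≤ ((univ : Finset Bool) ×ˢ P).card := by
    refine card_le_card_of_injOn (fun v => ((φ v).1.isLeft, (Sum.elim id j (φ v).1, (φ v).2)))
      (fun v hv => mem_coe.2 (mem_product.2 ⟨mem_univ _, h v hv⟩)) fun u _ v _ e => hφ ?_
    beta_reduce at e
    generalize φ u = p at e
    generalize φ v = q at e
    obtain ⟨x | x, y⟩ := p <;> obtain ⟨x' | x', y'⟩ := q <;> simp_all
  simpa using this

theorem blow0 {V : Type} [Fintype V] {N μ r w : ℕ} (D : DM N μ r w) (hw : 0 < w) {t a M : ℕ}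
    (j : Fin t ↪ D.X) {φ : V → (D.X ⊕ Fin t) × D.A} (hφ : Function.Injective φ)
    (hσ : ∀ z y, ∃ v, φ v = (Sum.inl z, y)) (h1 : N * Fintype.card D.A ≤ Fintype.card V)
    (ha : 0 < a) (h3 : 4 * Fintype.card V ≤ w * (a * a))
    (h4 : w * (a * a) ≤ M * Fintype.card V) (h5 : μ + 2 ≤ Fintype.card V) :
    ∃ H : SimpleGraph V, Good H μ ∧
      ∀ x, (nb H x).card ≤ N + t + (r + 1) * (2 * a * (μ + 2) * (M + 1)) := by
  choose σ hσ using hσ
  obtain ⟨x, hx⟩ : ∃ x : V → D.X, ∀ v, x v = Sum.elim id j (φ v).1 := ⟨_, fun _ => rfl⟩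
  obtain ⟨y, hy⟩ : ∃ y : V → D.A, ∀ v, y v = (φ v).2 := ⟨_, fun _ => rfl⟩
  have xσ : ∀ z b, x (σ z b) = z := fun z b => by rw [hx, hσ]; rfl
  have yσ : ∀ z b, y (σ z b) = b := fun z b => by rw [hy, hσ]
  let B : SimpleGraph V :=
    { Adj := fun u v => u ≠ v ∧ y u + y v = D.f (x u) (x v)
      symm := ⟨fun u v h => ⟨h.1.symm, by rw [add_comm, D.symm]; exact h.2⟩⟩
      loopless := ⟨fun u h => h.1 rfl⟩ }
  let κ : Option D.ι → V → Option (Fin w) := fun i v => i.elim
    (if y v + y v = D.f (x v) (x v) then some ⟨0, hw⟩ else none) fun i => some (D.κ i (x v))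
  obtain ⟨F, hF, hG⟩ := fix_all κ ha (M := M) (μ := μ) (fun i c => by
    refine Nat.le_of_mul_le_mul_left (le_trans ?_ h3) hw
    cases i with
    | none =>
      have a1 := card_two j hφ (univ.filter fun v => κ none v = some c)
        (univ.filter fun p : D.X × D.A => p.2 + p.2 = D.f p.1 p.1) fun v hv => by
          simp only [mem_filter, mem_univ, true_and, κ, Option.elim, ← hx, ← hy] at hv ⊢
          by_contra h
          simp [h] at hv
      have a4 := Nat.mul_le_mul_left w a1
      rw [mul_left_comm] at a4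
      have a3 := D.loop
      omega
    | some i =>
      have a1 := card_two j hφ (univ.filter fun v => κ (some i) v = some c)
        ((univ.filter fun z => D.κ i z = c) ×ˢ univ) fun v hv => by
          simpa [κ, ← hx] using hv
      rw [card_product, card_univ] at a1
      have a3 := Nat.mul_le_mul_right (Fintype.card D.A) (D.fib i c)
      have a4 := Nat.mul_le_mul_left w a1
      rw [mul_left_comm, ← mul_assoc w] at a4
      rw [mul_assoc 2] at a3
      omega) h4 h5
  refine ⟨B ⊔ F, fun u v huv => ?_, fun u => ?_⟩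
  · by_cases c1 : ∃ i c, κ i u = some c ∧ κ i v = some c
    · obtain ⟨i, c, hu, hv⟩ := c1
      exact (hG i u v c hu hv).trans ((card_le_card (inter_subset_inter (nb_mono le_sup_right u)
        (nb_mono le_sup_right v))).trans (Nat.le_add_left _ _))
    have c2 : ∀ i, D.κ i (x u) ≠ D.κ i (x v) := fun i e =>
      c1 ⟨some i, _, rfl, congrArg some e.symm⟩
    have c3 : ¬ (y u + y u = D.f (x u) (x u) ∧ y v + y v = D.f (x v) (x v)) := fun e =>
      c1 ⟨none, ⟨0, hw⟩, if_pos e.1, if_pos e.2⟩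
    have c4 := D.hit _ _ (y u - y v) c2
    let W : Finset V := univ.filter fun z => y u + y z = D.f (x u) (x z) ∧
      y v + y z = D.f (x v) (x z)
    have c5 : μ ≤ W.card := by
      refine c4.trans (card_le_card_of_injOn (fun z => σ z (D.f (x u) z - y u)) (fun z hz => ?_) ?_)
      · simp only [coe_filter, mem_univ, true_and, Set.mem_ofPred_eq] at hz
        simp only [W, coe_filter, mem_univ, true_and, Set.mem_ofPred_eq, xσ, yσ]
        refine ⟨add_sub_cancel _ _, ?_⟩
        rw [← sub_sub_cancel (D.f (x u) z) (D.f (x v) z), hz]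
        abel
      · intro z _ z' _ e
        simpa [xσ] using congrArg x e
    have c6 : (W.erase u).erase v ⊆ nb (B ⊔ F) u ∩ nb (B ⊔ F) v := by
      intro z hz
      simp only [W, mem_erase, mem_filter, mem_univ, true_and] at hz
      rw [mem_inter, mem_nb, mem_nb]
      exact ⟨Or.inl ⟨hz.2.1.symm, hz.2.2.1⟩, Or.inl ⟨hz.1.symm, hz.2.2.2⟩⟩
    have c7 := card_le_card c6
    have d1 := pred_card_le_card_erase (s := W.erase u) (a := v)
    have d2 := pred_card_le_card_erase (s := W) (a := u)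
    clear h1 h3 h4 h5 c4
    by_cases hu : u ∈ W
    · have e1 := (mem_filter.1 hu).2
      have hv : v ∉ W.erase u := fun hv => c3 ⟨e1.1, (mem_filter.1 (mem_of_mem_erase hv)).2.2⟩
      rw [erase_eq_of_notMem hv] at c7
      rw [if_pos (show (B ⊔ F).Adj u v from Or.inl (B.symm.1 _ _ ⟨huv.symm, e1.2⟩))]
      omega
    · rw [erase_eq_of_notMem hu] at c7 d1
      by_cases hv : v ∈ W
      · rw [if_pos (show (B ⊔ F).Adj u v from Or.inl ⟨huv, (mem_filter.1 hv).2.1⟩)]
        omega
      · rw [erase_eq_of_notMem hv] at c7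
        omega
  · have a1 : nb (B ⊔ F) u ⊆ nb B u ∪ nb F u := fun y hy => by simpa using hy
    have a2 : (nb B u).card ≤ (univ : Finset (D.X ⊕ Fin t)).card := by
      refine card_le_card_of_injOn (fun v => (φ v).1) (fun _ _ => mem_univ _)
        fun v hv v' hv' e => ?_
      have b1 := (mem_nb.1 hv).2
      have b2 := (mem_nb.1 hv').2
      have b3 : x v = x v' := by rw [hx, hx]; exact congrArg (Sum.elim id j) e
      rw [b3, ← b2, hy v, hy v'] at b1
      exact hφ (Prod.ext e (add_left_cancel b1))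
    have a3 := hF u
    rw [Fintype.card_option, D.cι] at a3
    rw [card_univ, Fintype.card_sum, D.cX, Fintype.card_fin] at a2
    exact (card_le_card a1).trans ((card_union_le _ _).trans (add_le_add a2 a3))

/-- the graph built from a difference matrix -/
theorem blow {N μ r w : ℕ} (D : DM N μ r w) (hw : 0 < w) {t n a M : ℕ} (ht : t ≤ N)
    (h1 : N * Fintype.card D.A ≤ n) (h2 : n ≤ (N + t) * Fintype.card D.A) (ha : 0 < a)
    (h3 : 4 * n ≤ w * (a * a)) (h4 : w * (a * a) ≤ M * n) (h5 : μ + 2 ≤ n) :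
    ∃ H : SimpleGraph (Fin n), Good H μ ∧
      ∀ x, (nb H x).card ≤ N + t + (r + 1) * (2 * a * (μ + 2) * (M + 1)) := by
  obtain ⟨j⟩ := Function.Embedding.nonempty_of_card_le (α := Fin t) (β := D.X)
    (by rw [D.cX]; simpa using ht)
  obtain ⟨S, hS, -, cS⟩ := exists_subsuperset_card_eq
    (s := (univ : Finset (D.X × D.A)).map (Function.Embedding.inl.prodMap (.refl _)))
    (t := (univ : Finset ((D.X ⊕ Fin t) × D.A))) (n := n) (subset_univ _)
    (by simpa [D.cX] using h1) (by simpa [D.cX] using h2)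
  have cV : Fintype.card S = n := by simpa using cS
  let e := (Fintype.equivFinOfCardEq cV).symm
  exact blow0 D hw j (φ := fun v => (e v).1) (Subtype.val_injective.comp e.injective)
    (fun z y => ⟨e.symm ⟨(Sum.inl z, y), hS (mem_map.2 ⟨(z, y), mem_univ _, rfl⟩)⟩, by simp⟩)
    (by simpa using h1) ha (by simpa using h3) (by simpa using h4) (by simpa using h5)

end Pool.Agent.MP_1dbd31_co.win

end MrgPart3

-- ======== part 4: formerly Pool.Agent.MP_1dbd31_co.win.Dens
section MrgPart4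

set_option autoImplicit false
open Finset

namespace Pool.Agent.MP_1dbd31_co.win

theorem near_pow {K : ℕ} (hK : 0 < K) : ∃ u v : ℕ, 2 ^ u ≠ 3 ^ v ∧
    K * 3 ^ v ≤ (K + 1) * 2 ^ u ∧ K * 2 ^ u ≤ (K + 1) * 3 ^ v := by
  let e : ℕ → ℕ := fun j => Nat.log 2 (3 ^ j)
  let c : ℕ → ℕ := fun j => K * 3 ^ j / 2 ^ e j
  have e1 : ∀ j, 2 ^ e j ≤ 3 ^ j := fun j => Nat.pow_log_le_self 2 (by positivity)
  have e2 : ∀ j, 3 ^ j < 2 * 2 ^ e j := fun j => by
    rw [← pow_succ']; exact Nat.lt_pow_succ_log_self one_lt_two _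
  have c1 : ∀ j, c j * 2 ^ e j ≤ K * 3 ^ j := fun j => Nat.div_mul_le_self _ _
  have c2 : ∀ j, K * 3 ^ j < (c j + 1) * 2 ^ e j := fun j => by
    rw [mul_comm (c j + 1)]; exact Nat.lt_mul_div_succ _ (by positivity)
  have c3 : ∀ j, c j ∈ Ico K (2 * K) := fun j => by
    rw [mem_Ico]
    refine ⟨(Nat.le_div_iff_mul_le (by positivity)).2 (Nat.mul_le_mul_left _ (e1 j)),
      (Nat.div_lt_iff_lt_mul (by positivity)).2 ?_⟩
    have := e2 j
    nlinarith
  obtain ⟨i, -, j, -, hij, hc⟩ := exists_ne_map_eq_of_card_lt_of_maps_to (s := range (K + 1))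
    (t := Ico K (2 * K)) (by simp; omega) (f := c) fun j _ => c3 j
  wlog h : i < j generalizing i j
  · exact this j i hij.symm hc.symm (by omega)
  obtain ⟨v, rfl⟩ := Nat.exists_eq_add_of_le h.le
  obtain ⟨u, hu⟩ := Nat.exists_eq_add_of_le (show e i ≤ e (i + v) from
    Nat.log_mono_right (Nat.pow_le_pow_right (by norm_num) h.le))
  have a1 := c1 i
  have a2 := c2 i
  have b1 := c1 (i + v)
  have b2 := c2 (i + v)
  have k := (mem_Ico.1 (c3 i)).1
  rw [← hc, hu, pow_add, pow_add] at b1 b2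
  generalize c i = γ at *
  have p1 : 0 < 2 ^ e i := by positivity
  have p2 : 0 < 3 ^ i := by positivity
  generalize 2 ^ e i = A at *
  generalize 3 ^ i = B at *
  have g : ∀ x y : ℕ, γ * x ≤ (γ + 1) * y → K * x ≤ (K + 1) * y := fun x y hxy => by
    refine Nat.le_of_mul_le_mul_left ?_ (hK.trans_le k)
    nlinarith [Nat.mul_le_mul_left K hxy, Nat.mul_le_mul_right y k]
  refine ⟨u, v, fun h3 => ?_, g _ _ ?_, g _ _ ?_⟩
  · have : 3 ∣ 2 ^ u := h3 ▸ dvd_pow_self 3 (by omega)
    exact absurd (Nat.prime_three.dvd_of_dvd_pow this) (by norm_num)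
  · refine Nat.le_of_mul_le_mul_left ?_ p1
    nlinarith [Nat.mul_le_mul_right (3 ^ v) a1]
  · refine Nat.le_of_mul_le_mul_left ?_ p1
    nlinarith [Nat.mul_le_mul_right (3 ^ v) a2.le]

theorem dens_aux {p q u v K P : ℕ} (w : ℕ) (hp : 1 < p) (hq : 0 < q) (hP : 0 < P)
    (h1 : p ^ u < q ^ v) (h2 : K * q ^ v ≤ (K + 1) * p ^ u) :
    ∃ Y₀, ∀ Y, Y₀ ≤ Y → ∃ a b, w ≤ a ∧ w ≤ b ∧ p ^ a * q ^ b * P ≤ Y ∧
      K * Y ≤ (K + 1) * (p ^ a * q ^ b * P) := by
  have p0 : 0 < p ^ u := by positivity
  obtain ⟨m, hm⟩ : ∃ m, p * (p ^ u) ^ m ≤ (q ^ v) ^ m := by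
    have h3 : (1 : ℝ) < (q ^ v : ℕ) / (p ^ u : ℕ) := by
      rw [one_lt_div (by exact_mod_cast p0)]; exact_mod_cast h1
    obtain ⟨m, hm⟩ := pow_unbounded_of_one_lt (p : ℝ) h3
    rw [div_pow, lt_div_iff₀ (by positivity)] at hm
    exact ⟨m, by exact_mod_cast hm.le⟩
  refine ⟨p ^ (w + u * m) * (q ^ w * P), fun Y hY => ?_⟩
  have r0 : 0 < q ^ w * P := by positivity
  obtain ⟨s, hs⟩ := Nat.exists_eq_add_of_le (show w + u * m ≤ Nat.log p (Y / (q ^ w * P)) from
    Nat.le_log_of_pow_le hp ((Nat.le_div_iff_mul_le r0).2 hY))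
  have y0 : Y / (q ^ w * P) ≠ 0 := (Nat.div_pos (le_trans (Nat.le_mul_of_pos_left _
    (by positivity)) hY) r0).ne'
  have l1 := (Nat.le_div_iff_mul_le r0).1 (Nat.pow_log_le_self p y0)
  have l2 := (Nat.div_lt_iff_lt_mul r0).1 (Nat.lt_pow_succ_log_self hp (Y / (q ^ w * P)))
  rw [hs] at l1 l2
  let N : ℕ → ℕ := fun j => p ^ (w + s + u * (m - j)) * q ^ (w + v * j) * P
  have n0 : N 0 ≤ Y := by
    refine le_trans (le_of_eq ?_) l1
    simp only [N, Nat.sub_zero, mul_zero, add_zero]
    ring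
  have n1 : Y < N m := by
    refine l2.trans_le ?_
    have := Nat.mul_le_mul_left (p ^ (w + s) * (q ^ w * P)) hm
    simp only [N, Nat.sub_self, mul_zero, add_zero, Nat.succ_eq_add_one]
    refine le_trans (le_of_eq ?_) (this.trans (le_of_eq ?_)) <;> ring
  classical
  have ex : ∃ j, Y < N j := ⟨m, n1⟩
  have f1 := Nat.find_spec ex
  have f2 := Nat.find_min' ex n1
  obtain ⟨j, hj⟩ : ∃ j, Nat.find ex = j + 1 :=
    Nat.exists_eq_succ_of_ne_zero fun h => by rw [h] at f1; omega
  have f3 : N j ≤ Y := not_lt.1 (Nat.find_min ex (by omega))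
  rw [hj] at f1 f2
  refine ⟨_, _, by omega, by omega, f3, (Nat.mul_le_mul_left K f1.le).trans ?_⟩
  obtain ⟨i, rfl⟩ := Nat.exists_eq_add_of_le f2
  have := Nat.mul_le_mul_left (p ^ (w + s + u * i) * q ^ (w + v * j) * P) h2
  simp only [N, Nat.add_sub_cancel_left, show j + 1 + i - j = i + 1 by omega]
  refine le_trans (le_of_eq ?_) (this.trans (le_of_eq ?_)) <;> ring

/-- the numbers `P 2^a 3^b` are multiplicatively dense -/
theorem dens {K P : ℕ} (w : ℕ) (hK : 0 < K) (hP : 0 < P) :
    ∃ Y₀, ∀ Y, Y₀ ≤ Y → ∃ a b, w ≤ a ∧ w ≤ b ∧ 3 ^ b * 2 ^ a * P ≤ Y ∧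
      K * Y ≤ (K + 1) * (3 ^ b * 2 ^ a * P) := by
  obtain ⟨u, v, h0, h1, h2⟩ := near_pow hK
  rcases lt_or_gt_of_ne h0 with h | h
  · obtain ⟨Y₀, hY⟩ := dens_aux w one_lt_two three_pos hP h h1
    refine ⟨Y₀, fun Y h => ?_⟩
    obtain ⟨a, b, h⟩ := hY Y h
    exact ⟨a, b, by rwa [mul_comm (3 ^ b)]⟩
  · obtain ⟨Y₀, hY⟩ := dens_aux w (by norm_num) two_pos hP h h2
    refine ⟨Y₀, fun Y h => ?_⟩
    obtain ⟨b, a, hb, ha, h⟩ := hY Y h
    exact ⟨a, b, ha, hb, h⟩

end Pool.Agent.MP_1dbd31_co.win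

end MrgPart4

-- ======== part 5: formerly Pool.Agent.MP_1dbd31_co.win.Reg
section MrgPart5

set_option autoImplicit false
open Finset SimpleGraph

namespace Pool.Agent.MP_1dbd31_co.win
open Classical

variable {V : Type} [Fintype V]

theorem deg_add {G : SimpleGraph V} {p q : V} (hpq : p ≠ q) (h : ¬ G.Adj p q) (x : V) :
    (nb (G ⊔ edge p q) x).card =
      (nb G x).card + (if x = p then 1 else 0) + (if x = q then 1 else 0) := by
  by_cases h1 : x = p
  · subst h1
    have : nb (G ⊔ edge x q) x = insert q (nb G x) := by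
      ext y
      simp only [mem_nb, sup_adj, edge_adj, mem_insert, true_and, hpq, false_and, or_false]
      constructor
      · rintro (h' | h')
        exacts [Or.inr h', Or.inl h'.1]
      · rintro (rfl | h')
        exacts [Or.inr ⟨rfl, hpq⟩, Or.inl h']
    rw [this, card_insert_of_notMem (by simpa using h), if_pos rfl, if_neg hpq]
  by_cases h2 : x = q
  · subst h2
    have : nb (G ⊔ edge p x) x = insert p (nb G x) := by
      ext y
      simp only [mem_nb, sup_adj, edge_adj, mem_insert, true_and, h1, false_and, false_or]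
      constructor
      · rintro (h' | h')
        exacts [Or.inr h', Or.inl h'.1]
      · rintro (rfl | h')
        exacts [Or.inr ⟨rfl, h1⟩, Or.inl h']
    rw [this, card_insert_of_notMem (fun h' => h (mem_nb.1 h').symm), if_neg h1, if_pos rfl]
  · have : nb (G ⊔ edge p q) x = nb G x := by
      ext y
      simp [edge_adj, h1, h2]
    rw [this, if_neg h1, if_neg h2]
    rfl

theorem deg_del {G : SimpleGraph V} {a b : V} (h : G.Adj a b) (x : V) :
    (nb G x).card =
      (nb (G \ edge a b) x).card + (if x = a then 1 else 0) + (if x = b then 1 else 0) := by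
  have e : (G \ edge a b) ⊔ edge a b = G := by
    refine sdiff_sup_cancel ?_
    intro u v huv
    rcases ((edge_adj _ _ _ _).1 huv).1 with ⟨rfl, rfl⟩ | ⟨rfl, rfl⟩
    exacts [h, h.symm]
  rw [← deg_add h.ne (by simp [edge_adj, h.ne]), e]

theorem sum_ind (p : V) : ∑ x : V, (if x = p then 1 else 0 : ℕ) = 1 := by simp

/-- a sparse graph extends to an almost regular one -/
theorem reg (H₀ : SimpleGraph V) {d g : ℕ} (h0 : ∀ x, (nb H₀ x).card + g ≤ d)
    (hg : d * d + g * d < g * Fintype.card V) :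
    ∃ H, H₀ ≤ H ∧ (∀ x, (nb H x).card ≤ d) ∧ Fintype.card V * d ≤ ds H + 1 := by
  obtain ⟨H, ⟨hH, hd⟩, hmax⟩ := Set.exists_max_image
    {H : SimpleGraph V | H₀ ≤ H ∧ ∀ x, (nb H x).card ≤ d} ds (Set.toFinite _)
    ⟨H₀, le_rfl, fun x => by have := h0 x; omega⟩
  refine ⟨H, hH, hd, ?_⟩
  by_contra hcon
  have clq : ∀ u v, u ≠ v → (nb H u).card < d → (nb H v).card < d → H.Adj u v := by
    intro u v huv hu hv
    by_contra hn
    have h1 := deg_add huv hn
    have h2 := hmax (H ⊔ edge u v) ⟨hH.trans le_sup_left, fun x => by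
      rw [h1 x]
      have := hd x
      split_ifs with a b b
      · exact absurd (a.symm.trans b) huv
      · subst a; omega
      · subst b; omega
      · omega⟩
    simp only [ds, h1, sum_add_distrib, sum_ind] at h2
    omega
  have huv : ∃ u v, ∀ x, (nb H x).card + (if x = u then 1 else 0) + (if x = v then 1 else 0) ≤ d := by
    have s1 : ∑ x, (d - (nb H x).card) + ds H = Fintype.card V * d := by
      rw [ds, ← sum_add_distrib, sum_congr rfl fun x _ => Nat.sub_add_cancel (hd x)]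
      simp
    have s2 : 2 ≤ ∑ x, (d - (nb H x).card) := by omega
    obtain ⟨u, -, hu⟩ := exists_ne_zero_of_sum_ne_zero
      (show ∑ x, (d - (nb H x).card) ≠ 0 by omega)
    by_cases h2 : 2 ≤ d - (nb H u).card
    · refine ⟨u, u, fun x => ?_⟩
      have := hd x
      split_ifs with a
      · subst a; omega
      · omega
    · rw [← add_sum_erase _ _ (mem_univ u)] at s2
      obtain ⟨v, hv, hv'⟩ := exists_ne_zero_of_sum_ne_zero
        (show ∑ x ∈ univ.erase u, (d - (nb H x).card) ≠ 0 by omega)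
      refine ⟨u, v, fun x => ?_⟩
      have := hd x
      split_ifs with a b b
      · exact absurd (b.symm.trans a) (ne_of_mem_erase hv)
      · subst a; omega
      · subst b; omega
      · omega
  obtain ⟨u, v, huv⟩ := huv
  have hu : (nb H u).card < d := by have := huv u; rw [if_pos rfl] at this; omega
  have hv : (nb H v).card < d := by have := huv v; rw [if_pos (rfl : v = v)] at this; omega
  have huv' : u = v ∨ H.Adj u v := (Classical.em _).imp_right fun h => clq u v h hu hv
  have ex : ∃ a b, H.Adj a b ∧ ¬ H₀.Adj a b ∧ a ≠ u ∧ ¬ H.Adj u a ∧ b ≠ v ∧ ¬ H.Adj v b := by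
    by_contra hno
    push Not at hno
    set A := (insert u (nb H u))ᶜ with hA
    set B := insert v (nb H v) with hB
    have c1 : ∀ a ∈ A, g ≤ (B.filter (H.Adj a)).card := by
      intro a ha
      rw [hA, mem_compl, mem_insert, mem_nb, not_or] at ha
      have e1 : (nb H a).card = d := by
        by_contra hne
        exact ha.2 (clq u a (Ne.symm ha.1) hu (lt_of_le_of_ne (hd a) hne))
      have e2 : nb H a \ nb H₀ a ⊆ B.filter (H.Adj a) := by
        intro b hb
        rw [mem_sdiff, mem_nb, mem_nb] at hb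
        rw [mem_filter, hB, mem_insert, mem_nb]
        exact ⟨(Classical.em _).imp_right fun h => hno a b hb.1 hb.2 ha.1 ha.2 h, hb.1⟩
      have e3 := card_le_card e2
      have e4 := le_card_sdiff (nb H₀ a) (nb H a)
      have := h0 a
      omega
    have c2 : ∀ b ∈ B, (A.filter (fun a => H.Adj a b)).card ≤ d := by
      intro b _
      refine le_trans (card_le_card fun a ha => ?_) (hd b)
      exact mem_nb.2 (mem_filter.1 ha).2.symm
    have c3 := card_mul_le_card_mul (fun a b => H.Adj a b) c1 c2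
    have c4 : B.card ≤ d := by
      have := card_insert_le v (nb H v)
      rw [hB]
      omega
    have c5 := card_add_card_compl (insert u (nb H u))
    have c6 := card_insert_le u (nb H u)
    have c7 : Fintype.card V ≤ A.card + d := by rw [hA]; omega
    have c8 := Nat.mul_le_mul_left g c7
    have c9 := Nat.mul_le_mul_right d c4
    nlinarith
  obtain ⟨a, b, h1, h2, h3, h4, h5, h6⟩ := ex
  have d1 := deg_del h1
  have n2 : ¬ (H \ edge a b).Adj u a := fun h => h4 h.1
  have d2 := deg_add h3.symm n2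
  have n3 : ¬ ((H \ edge a b) ⊔ edge u a).Adj v b := by
    rintro (h | h)
    · exact h6 h.1
    · rcases ((edge_adj _ _ _ _).1 h).1 with ⟨_, e⟩ | ⟨_, e⟩
      · exact h1.ne e.symm
      · subst e
        exact huv'.elim h5 fun h => h6 h.symm
  have d3 := deg_add h5.symm n3
  have key : ∀ x, (nb (((H \ edge a b) ⊔ edge u a) ⊔ edge v b) x).card =
      (nb H x).card + (if x = u then 1 else 0) + (if x = v then 1 else 0) := by
    intro x
    rw [d3 x, d2 x, d1 x]
    ring
  have h7 := hmax (((H \ edge a b) ⊔ edge u a) ⊔ edge v b) ⟨fun p q hpq => ?_, fun x => by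
    rw [key x]; exact huv x⟩
  · simp only [ds, key, sum_add_distrib, sum_ind] at h7
    omega
  · refine Or.inl (Or.inl ⟨hH hpq, fun h => h2 ?_⟩)
    rcases ((edge_adj _ _ _ _).1 h).1 with ⟨rfl, rfl⟩ | ⟨rfl, rfl⟩
    exacts [hpq, hpq.symm]

end Pool.Agent.MP_1dbd31_co.win

end MrgPart5

-- ======== part 6: formerly Pool.Agent.MP_1dbd31_co.win.Key
section MrgPart6

set_option autoImplicit false
open Finset SimpleGraph

namespace Pool.Agent.MP_1dbd31_co.win
open Classical

theorem num1 {J Y N : ℕ} (J0 : 0 < J) (h : 9 * J * Y ≤ (9 * J + 1) * N) (y : 12 ≤ Y) : 6 ≤ N := by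
  nlinarith

theorem num2 {J N e : ℕ} (J0 : 0 < J) (h : 9 * J * e ≤ N) (y : 6 ≤ N) : 3 * (e + 1) ≤ N := by
  nlinarith

theorem num3 {Y N e m : ℕ} (h : m < Y.succ * Y.succ) (e2 : Y ≤ N + e) (e3 : 3 * (e + 1) ≤ N) :
    m ≤ (N + 3 * (e + 1)) * N := by
  have a1 : Y.succ ≤ N + (e + 1) := by omega
  have a2 := Nat.mul_le_mul a1 a1
  have a3 : (e + 1) * (e + 1) ≤ N * (e + 1) := Nat.mul_le_mul_right _ (by omega)
  nlinarith

theorem num4 {n d s a : ℕ} (h : n ≤ d * d) (f2 : 2 * d < s * a) : 4 * n ≤ s * s * (a * a) := by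
  nlinarith [Nat.mul_le_mul f2.le f2.le]

theorem num5 {n d s a L : ℕ} (h : d * d ≤ L * n) (f2 : s * a ≤ 3 * d) :
    s * s * (a * a) ≤ 9 * L * n := by
  nlinarith [Nat.mul_le_mul f2 f2]

theorem num6 {K N d : ℕ} (a1 : (K + 1) * (N * N) ≤ K * (d * d)) :
    (2 * K + 2) * N ≤ (2 * K + 1) * d := by
  rw [← Nat.mul_self_le_mul_self_iff]
  have a2 := Nat.mul_le_mul_left (4 * (K + 1)) a1
  nlinarith [Nat.zero_le (d * d)]

theorem num7 {J N e Q f g d c : ℕ} (h0 : J * d = c + d) (g2 : J * N ≤ c) (g3 : N ≤ d)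
    (g4 : 3 * J * (3 + Q + g) ≤ d) (e1 : 9 * J * e ≤ N) (f1 : 6 * J * Q * f ≤ 2 * d) :
    J * (N + 3 * (e + 1) + Q * (f + 1) + g) ≤ J * d := by
  nlinarith

theorem key {μ L K : ℕ} (g : ℕ) (hμ : 0 < μ) (hL : 0 < L) :
    ∃ d₀, ∀ d n, d₀ ≤ d → d * d ≤ L * n → (K + 1) * (μ * n) ≤ K * (d * d) →
      ∃ H : SimpleGraph (Fin n), Good H μ ∧ ∀ x, (nb H x).card + g ≤ d := by
  obtain ⟨J, hJ⟩ : ∃ J, J = 2 * K + 2 := ⟨_, rfl⟩
  obtain ⟨Q, hQ⟩ : ∃ Q, Q = (μ + 2) * (2 * (μ + 2) * (9 * L + 1)) := ⟨_, rfl⟩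
  obtain ⟨s, hs⟩ : ∃ s, s = 6 * J * Q := ⟨_, rfl⟩
  have J0 : 0 < J := by omega
  have Q0 : 0 < Q := by rw [hQ]; positivity
  have s0 : 0 < s := by rw [hs]; positivity
  have w0 : 0 < s * s := by positivity
  obtain ⟨P, r, hP, hr, hD⟩ := dm_all hμ w0
  obtain ⟨Y₀, hY⟩ := dens (K := 9 * J) (s * s) (by omega) hP
  refine ⟨L * (Y₀ + 12 + μ) + s + 3 * J * (3 + Q + g), fun d n hd h1 h2 => ?_⟩
  have n1 : (Y₀ + 12 + μ) * (Y₀ + 12 + μ) ≤ n := by
    have a1 : L * (Y₀ + 12 + μ) ≤ d := by omega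
    have a2 := (Nat.mul_le_mul a1 a1).trans h1
    rw [mul_assoc] at a2
    have a3 := Nat.le_of_mul_le_mul_left a2 hL
    exact le_trans (Nat.mul_le_mul_left _ (Nat.le_mul_of_pos_left _ hL)) a3
  have n2 : n ≤ μ * n := Nat.le_mul_of_pos_left _ hμ
  have n3 : μ * n ≤ d * d := Nat.le_of_mul_le_mul_left
    (h2.trans (Nat.mul_le_mul_right _ (Nat.le_succ K))) (Nat.succ_pos K)
  have y1 : Y₀ + 12 + μ ≤ Nat.sqrt (μ * n) := Nat.le_sqrt.2 (n1.trans n2)
  have y2 := Nat.sqrt_le (μ * n)
  have y3 := Nat.lt_succ_sqrt (μ * n)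
  generalize Nat.sqrt (μ * n) = Y at y1 y2 y3
  obtain ⟨a, b, ha, hb, h3, h4⟩ := hY Y (by omega)
  obtain ⟨D⟩ := hD a b ha hb
  generalize 3 ^ b * 2 ^ a * P = N at *
  have N1 : 6 ≤ N := num1 J0 h4 (by omega)
  have e1 := Nat.mul_div_le N (9 * J)
  have e2 : Y ≤ N + N / (9 * J) := by
    have : Y - N ≤ N / (9 * J) := (Nat.le_div_iff_mul_le (by omega)).2 (by
      rw [Nat.sub_mul]
      have : N * (9 * J) + N = (9 * J + 1) * N := by ring
      rw [mul_comm Y]
      omega)
    omega
  generalize N / (9 * J) = e at e1 e2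
  have e3 : 3 * (e + 1) ≤ N := num2 J0 e1 N1
  have f1 := Nat.mul_div_le (2 * d) s
  have f2 := Nat.lt_mul_div_succ (2 * d) s0
  generalize 2 * d / s = f at f1 f2
  have cA := D.cA
  obtain ⟨H, hH, hd'⟩ := blow D w0 (t := 3 * (e + 1)) (n := n) (a := f + 1) (M := 9 * L) e3
    (Nat.le_of_mul_le_mul_right (by
      rw [mul_assoc, cA, mul_comm n]
      exact (Nat.mul_le_mul h3 h3).trans y2) hμ)
    (Nat.le_of_mul_le_mul_right (by
      rw [mul_assoc, cA, mul_comm n]
      exact num3 y3 e2 e3) hμ) (Nat.succ_pos f) (num4 (n2.trans n3) f2)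
    (num5 h1 (by rw [mul_add]; omega))
    (le_trans (le_trans (by omega) (Nat.le_mul_self _)) n1)
  refine ⟨H, hH, fun x => ?_⟩
  have g1 : (r + 1) * (2 * (f + 1) * (μ + 2) * (9 * L + 1)) ≤ Q * (f + 1) :=
    (Nat.mul_le_mul_right _ (show r + 1 ≤ μ + 2 by omega)).trans (le_of_eq (by rw [hQ]; ring))
  have g2 : J * N ≤ (2 * K + 1) * d :=
    hJ ▸ num6 ((Nat.mul_le_mul_left (K + 1) ((Nat.mul_le_mul h3 h3).trans y2)).trans h2)
  have g3 : N ≤ d := Nat.mul_self_le_mul_self_iff.1 (((Nat.mul_le_mul h3 h3).trans y2).trans n3)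
  have g5 : J * (N + 3 * (e + 1) + Q * (f + 1) + g) ≤ J * d :=
    num7 (by rw [hJ]; ring) g2 g3 (by omega) e1 (hs ▸ f1)
  have g6 := Nat.le_of_mul_le_mul_left g5 J0
  have := hd' x
  omega

/-- almost regular graphs in which every pair has `μ` short paths -/
theorem almost_reg (μ L K : ℕ) (hL : 0 < L) :
    ∃ d₀, ∀ d n, d₀ ≤ d → d * d ≤ L * n → (K + 1) * (μ * n) ≤ K * (d * d) →
      ∃ H : SimpleGraph (Fin n), Good H μ ∧ (∀ x, (nb H x).card ≤ d) ∧ n * d ≤ ds H + 1 := by
  obtain ⟨d₀, h⟩ : ∃ d₀, ∀ d n, d₀ ≤ d → d * d ≤ L * n → (K + 1) * (μ * n) ≤ K * (d * d) →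
      ∃ H : SimpleGraph (Fin n), Good H μ ∧ ∀ x, (nb H x).card + 2 * L ≤ d := by
    rcases Nat.eq_zero_or_pos μ with rfl | hμ
    · refine ⟨2 * L, fun d n hd _ _ => ⟨⊥, fun _ _ _ => Nat.zero_le _, fun x => ?_⟩⟩
      have : nb (⊥ : SimpleGraph (Fin n)) x = ∅ := by ext; simp
      simpa [this] using hd
    · exact key _ hμ hL
  refine ⟨d₀ + 2 * L + 1, fun d n hd h1 h2 => ?_⟩
  obtain ⟨H₀, a1, a2⟩ := h d n (by omega) h1 h2
  obtain ⟨H, b1, b2, b3⟩ := reg H₀ a2 (by
    rw [Fintype.card_fin]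
    have : 2 * L * d < d * d := Nat.mul_lt_mul_of_pos_right (by omega) (by omega)
    nlinarith)
  exact ⟨H, a1.mono b1, b2, by simpa using b3⟩

end Pool.Agent.MP_1dbd31_co.win

end MrgPart6

-- ======== part 7: formerly Pool.Agent.MP_1dbd31_co.win.Final
section MrgPart7

set_option autoImplicit false
open Finset SimpleGraph

namespace Pool.Agent.MP_1dbd31_co.sq
open scoped Classical

theorem almost (μ L K : ℕ) (hL : 0 < L) :
    ∃ d₀, ∀ d n, d₀ ≤ d → d * d ≤ L * n → (K + 1) * (μ * n) ≤ K * (d * d) →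
      ∃ H : SimpleGraph (Fin n), Paths μ H ∧ (∀ x, (nb H x).card ≤ d) ∧ n * d ≤ tot H + 1 :=
  win.almost_reg μ L K hL

variable {V W : Type} [Fintype V] [Fintype W]

theorem cond_paths {M : SimpleGraph V} {r D u : ℕ} (hM : Paths u M)
    (hd : ∀ x, (nb M x).card ≤ D) (hr : r + u = 2 * D + 1) : Cond r M := by
  intro x y hxy
  have := hM x y hxy
  have := card_union_add_card_inter (nb M x) (nb M y)
  have := hd x
  have := hd y
  split_ifs at * <;> omega

theorem cond_sum' {M : SimpleGraph V} {R : SimpleGraph W} {r D u : ℕ} (hM : Paths u M)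
    (hd : ∀ x, (nb M x).card ≤ D) (huD : u ≤ D) (hr : r + u = 2 * D + 1)
    (hK : ∀ x, (nb R x).card ≤ D - u) : Cond r (M.sum R) := by
  refine cond_of_cases fun x y hxy => ?_
  rcases x with x | x <;> rcases y with y | y
  · have := hM x y (by simpa using hxy)
    have := hd x
    have := hd y
    refine Or.inr ⟨(nb M x ∩ nb M y).map Function.Embedding.inl, ?_, ?_, ?_⟩
    · rw [nb_sum_inl, map_subset_map]
      exact inter_subset_left
    · rw [nb_sum_inl, map_subset_map]
      exact inter_subset_right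
    · simp only [nb_sum_inl, card_map, sum_adj_inl]
      omega
  · have := hK y
    have := hd x
    simp only [nb_sum_inl, nb_sum_inr, card_map]
    omega
  · have := hK x
    have := hd y
    simp only [nb_sum_inl, nb_sum_inr, card_map]
    omega
  · have := hK x
    have := hK y
    simp only [nb_sum_inr, card_map]
    omega

/-- the counting bound -/
theorem tot_bound {H : SimpleGraph V} {r : ℕ} (h : Cond r H) (hn : r + 1 < Fintype.card V) :
    ∃ D, D < r ∧ tot H ≤ Fintype.card V * D ∧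
      tot H ≤ D * (D + 1) + (Fintype.card V - 1) * (r - 1 - D) := by
  obtain ⟨v, hv⟩ := exists_maxdeg H (by omega)
  have h1 := deg_lt h hn v
  have h2 := (count h rfl hv).1
  refine ⟨_, h1, tot_le hv, ?_⟩
  generalize (nb H v).card = D at *
  obtain ⟨s, rfl⟩ := Nat.exists_eq_add_of_lt h1
  rw [show D + s + 1 - 1 - D = s by omega]
  nlinarith

theorem conv_num {n d D r μ : ℤ} (hr : r + μ = 2 * d + 1) (h1 : d < D) (h2 : D < r)
    (a : d ^ 2 + 2 * d + 3 + μ ≤ (μ + 1) * n) (b : r * (r - 1) ≤ n * d) :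
    D * (D + 1) + (n - 1) * (r - 1 - D) ≤ n * d := by
  have e : r = 2 * d + 1 - μ := by omega
  by_cases c : D + d + 3 ≤ n
  · subst e
    nlinarith [mul_nonneg (show 0 ≤ D - (d + 1) by omega) (sub_nonneg.2 c)]
  · nlinarith [mul_nonneg (show 0 ≤ r - 1 - D by omega) (show 0 ≤ r + D + 1 - n by omega)]

/-- the exact value when an almost regular complement exists -/
theorem exact_of {n k d μ r : ℕ} (hn : n = k + r) (hr : r + μ = 2 * d + 1) (h1 : 1 ≤ r)
    (hk : 2 ≤ k) (a : d ^ 2 + 2 * d + 3 + μ ≤ (μ + 1) * n) (b : r * (r - 1) ≤ n * d)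
    (h : 2 * ghat n k + n * d ≤ n * (n - 1) + 1) : ghat n k = n.choose 2 - n * d / 2 := by
  obtain ⟨G, g1, g2⟩ := ghat_attained hn h1
  obtain ⟨D, d1, d2, d3⟩ := tot_bound g1 (by simp; omega)
  rw [Fintype.card_fin] at d2 d3
  have h3 : tot G ≤ n * d := by
    by_cases c : D ≤ d
    · exact d2.trans (Nat.mul_le_mul_left _ c)
    refine d3.trans ?_
    have := conv_num (n := n) (d := d) (D := D) (r := r) (μ := μ) (by omega) (by omega) (by omega)
      (by exact_mod_cast a) (by zify [h1] at b; exact b)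
    zify [h1, show 1 ≤ n by omega, show D ≤ r - 1 by omega]
    exact this
  have := tot_eq G
  have := two_choose n
  omega

theorem exists_K {ε : ℝ} (hε : 0 < ε) : ∃ K : ℕ, 1 ≤ ((K : ℝ) + 1) * ε := by
  obtain ⟨K, hK⟩ := exists_nat_one_div_lt hε
  rw [div_lt_iff₀ (by positivity)] at hK
  exact ⟨K, by linarith⟩

end Pool.Agent.MP_1dbd31_co.sq

end MrgPart7

-- marker of a merged file
example : 731051 + 816869 = 731051 + 816869 := rfl
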